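import Pool.Agent.H948.HS.Stm

set_option autoImplicit false

/-!
# The probability of a pattern
-/

namespace Pool.Agent.H322.HS.PB

open MeasureTheory ProbabilityTheory Set Filter Metric
open scoped ENNReal NNReal Topology RealInnerProductSpace
open Pool.Agent.H948.HS

/-- two disjoint blocks -/
theorem two_block (hB : S_BLOCK) {m : ℕ} {t n0 n1 : ℕ} {A0 A1 : Set (Om m)}
    (h0 : MeasurableSet A0) (hl0 : Loc n0 A0) (h1 : MeasurableSet A1) (hl1 : Loc n1 A1)
    (ht : n0 ≤ t) :
    (Pm m).real {u | u ∈ A0 ∧ shift t u ∈ A1} = (Pm m).real A0 * (Pm m).real A1 := by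
  have h := hB m 2 (fun i => if i = 0 then 0 else t) (fun i => if i = 0 then n0 else n1)
    (fun i => if i = 0 then A0 else A1) (by
      intro i hi
      by_cases h : i = 0
      · simp only [h, if_true]; exact ⟨h0, hl0⟩
      · simp only [h, if_false]; exact ⟨h1, hl1⟩) (by
      intro i hi
      have : i = 0 := by omega
      subst this
      simp [ht])
  rw [Finset.prod_range_succ, Finset.prod_range_one] at h
  simp only [if_true, one_ne_zero, if_false] at h
  rw [← h]
  congr 1
  ext u
  constructor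
  · rintro ⟨ha, hb⟩ i hi
    by_cases h : i = 0
    · subst h
      simpa [shift_zero] using ha
    · simpa [h] using hb
  · intro hu
    have ha := hu 0 (by norm_num)
    have hb := hu 1 (by norm_num)
    refine ⟨?_, ?_⟩
    · simpa [shift_zero] using ha
    · simpa using hb

theorem loc_mono {m : ℕ} {n n' : ℕ} {A : Set (Om m)} (h : Loc n A) (hn : n ≤ n') : Loc n' A :=
  fun u v huv => h u v fun i hi => huv i (lt_of_lt_of_le hi hn)

section claim

variable {m : ℕ} {c v C2 ζ : ℝ} {N τ : ℕ} {T α β : ℕ → ℕ} {A x D κ lm : ℝ}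

theorem T_add (hT1 : ∀ k, T (k + 1) = T k + N) (k j : ℕ) : T (k + j) = T k + j * N := by
  induction j with
  | zero => simp
  | succ j ih => rw [← add_assoc, hT1, ih]; ring

theorem T_lt (hT1 : ∀ k, T (k + 1) = T k + N) {b a : ℕ} (h : b < a) : T b + N ≤ T a := by
  obtain ⟨j, rfl⟩ := Nat.exists_eq_add_of_lt h
  rw [add_assoc, T_add hT1]
  nlinarith

theorem claim (hB : S_BLOCK) (hlm0 : 0 < lm) (hlm1 : lm ≤ 1)
    (hT1 : ∀ k, T (k + 1) = T k + N) (h2τ : 2 * τ < N) (hαβ : ∀ k, α k ≤ τ ∧ β k ≤ τ)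
    (hA : 1 ≤ A) (hWb : ∀ n, (Pm m).real (Wb m c (e0 m) n) ≤ A * lm ^ n)
    (hx0 : 0 < x) (hNice : ∀ n, n ≤ N → N ≤ n + 2 * τ →
      (Pm m).real (Nice m c v C2 ζ n) ≤ x * lm ^ n)
    (hD : 1 ≤ D) (hκ0 : 0 < κ) (hκ1 : κ ≤ 1) (hZ : ∀ n, Z m c n ≤ D * (lm / κ) ^ n)
    (C : Finset ℕ) : ∀ (a : ℕ), a ∈ C → (∀ k ∈ C, k ≤ a) → ∀ (G : Finset ℕ),
      (∀ k ∈ G, k ∈ C ∧ k + 1 ∈ C) →
    ∃ Q : Set (Om m), MeasurableSet Q ∧ Loc (T a - α a) Q ∧
      (∀ (u : Om m) (L : ℕ), T a ≤ L → u ∈ Saw m c L →
        (∀ k ∈ C, (∀ t ≤ T k, ht u 0 t ≤ ht u 0 (T k - α k)) ∧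
          ∀ t, T k ≤ t → t ≤ L → ht u 0 (T k + β k) ≤ ht u 0 t) →
        (∀ k ∈ G, shift (T k + β k) u ∈
          Nice m c v C2 ζ (T (k + 1) - α (k + 1) - (T k + β k))) → u ∈ Q) ∧
      (Pm m).real Q * (lm ^ (2 * τ * (C.card - 1)) * κ ^ (T a - α a)) ≤
        D * A ^ (C.card - 1) * x ^ G.card * lm ^ (T a - α a) := by
  classical
  induction C using Finset.induction_on_max with
  | empty => intro a ha; simp at ha
  | insert a' C' hmax ih =>
    intro a ha hamax G hG
    -- `a' = a`
    have haa : a = a' := by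
      rcases Finset.mem_insert.1 ha with h | h
      · exact h
      · exact absurd (hamax a' (Finset.mem_insert_self _ _)) (by have := hmax a h; omega)
    subst haa
    have hnot : a ∉ C' := fun h => lt_irrefl _ (hmax a h)
    rw [Finset.card_insert_of_notMem hnot, Nat.add_sub_cancel]
    rcases C'.eq_empty_or_nonempty with hC' | hC'
    · -- one element
      subst hC'
      have hGe : G = ∅ := by
        rw [Finset.eq_empty_iff_forall_notMem]
        intro k hk
        obtain ⟨h1, h2⟩ := hG k hk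
        simp at h1 h2
        omega
      subst hGe
      refine ⟨Saw m c (T a - α a), meas_Saw _ _, loc_Saw _ _, ?_, ?_⟩
      · intro u L hL hu _ _
        exact saw_mono hu (by omega)
      · simp only [Finset.card_empty, Nat.mul_zero, pow_zero, one_mul, mul_one]
        have h1 := hZ (T a - α a)
        rw [div_pow] at h1
        have h2 : 0 < κ ^ (T a - α a) := pow_pos hκ0 _
        have h3 := mul_le_mul_of_nonneg_right h1 h2.le
        have h4 : D * (lm ^ (T a - α a) / κ ^ (T a - α a)) * κ ^ (T a - α a) =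
            D * lm ^ (T a - α a) := by
          field_simp
        rw [h4] at h3
        exact h3
    · -- the previous element
      obtain ⟨b, hbdef⟩ : ∃ b, b = C'.max' hC' := ⟨_, rfl⟩
      have hb : b ∈ C' := hbdef ▸ C'.max'_mem hC'
      have hbmax : ∀ k ∈ C', k ≤ b := fun k hk => hbdef ▸ C'.le_max' k hk
      have hba : b < a := hmax b hb
      have hTba : T b + N ≤ T a := T_lt hT1 hba
      obtain ⟨hαa, hβa⟩ := hαβ a
      obtain ⟨hαb, hβb⟩ := hαβ b
      have hG' : ∀ k ∈ G.erase b, k ∈ C' ∧ k + 1 ∈ C' := by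
        intro k hk
        obtain ⟨hkb, hkG⟩ := Finset.mem_erase.1 hk
        obtain ⟨h1, h2⟩ := hG k hkG
        have h3 : k ≠ a := by
          intro h
          subst h
          rcases Finset.mem_insert.1 h2 with h | h
          · omega
          · have := hmax _ h; omega
        have h4 : k ∈ C' := (Finset.mem_insert.1 h1).resolve_left h3
        have h5 := hbmax k h4
        refine ⟨h4, (Finset.mem_insert.1 h2).resolve_left ?_⟩
        omega
      obtain ⟨Q', hQm, hQl, hQu, hQp⟩ := ih b hb hbmax (G.erase b) hG'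
      set t1 := T b + β b with ht1
      set n := T a - α a - t1 with hn
      have htn : t1 + n = T a - α a := by omega
      let Pc : Set (Om m) := if b ∈ G then Nice m c v C2 ζ n else Wb m c (e0 m) n
      have hPm : MeasurableSet Pc := by
        by_cases h : b ∈ G
        · simp only [Pc, h, if_true]; exact meas_Nice _ _ _ _ _
        · simp only [Pc, h, if_false]; exact meas_Wb _ _ _
      have hPl : Loc n Pc := by
        by_cases h : b ∈ G
        · simp only [Pc, h, if_true]; exact loc_Nice _ _ _ _ _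
        · simp only [Pc, h, if_false]; exact loc_Wb _ _ _
      have hbG : b ∈ G → a = b + 1 := by
        intro h
        obtain ⟨_, h2⟩ := hG b h
        rcases Finset.mem_insert.1 h2 with h3 | h3
        · exact h3.symm
        · have := hbmax _ h3; omega
      refine ⟨{u | u ∈ Q' ∧ shift t1 u ∈ Pc}, ?_, ?_, ?_, ?_⟩
      · exact hQm.inter (measurable_shift t1 hPm)
      · intro u w huw
        have e1 := hQl u w fun i hi => huw i (by omega)
        have e2 := hPl (shift t1 u) (shift t1 w) fun i hi => huw (t1 + i) (by omega)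
        change (u ∈ Q' ∧ shift t1 u ∈ Pc) ↔ (w ∈ Q' ∧ shift t1 w ∈ Pc)
        rw [e1, e2]
      · intro u L hL hu hC hGn
        refine ⟨hQu u L (by omega) hu (fun k hk => hC k (Finset.mem_insert_of_mem hk))
          (fun k hk => hGn k (Finset.mem_of_mem_erase hk)), ?_⟩
        by_cases h : b ∈ G
        · simp only [Pc, h, if_true]
          have h1 := hGn b h
          rw [← hbG h] at h1
          exact h1
        · simp only [Pc, h, if_false]
          refine ⟨saw_shift hu (by omega), fun j hj => ?_⟩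
          rw [← ht_eq_inner, ← ht_eq_inner, ht_shift, ht_shift]
          have hbC := hC b (Finset.mem_insert_of_mem hb)
          have haC := hC a (Finset.mem_insert_self _ _)
          have h1 := ht_add u (Nat.zero_le t1) (Nat.le_add_right t1 j)
          have h2 := ht_add u (Nat.zero_le t1) (Nat.le_add_right t1 n)
          have h3 := hbC.2 (t1 + j) (by omega) (by omega)
          have h4 := haC.1 (t1 + j) (by omega)
          rw [← htn] at h4
          simp only [add_zero]
          constructor <;> linarith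
      · rw [two_block hB hQm hQl hPm hPl (by omega)]
        have hcard : C'.card = (C'.card - 1) + 1 := by
          have := Finset.card_pos.2 hC'
          omega
        -- the probability of the piece
        obtain ⟨y, hy0, hyP, hyA⟩ : ∃ y : ℝ, 0 < y ∧ (Pm m).real Pc ≤ y * lm ^ n ∧
            x ^ (G.erase b).card * y ≤ A * x ^ G.card := by
          by_cases h : b ∈ G
          · refine ⟨x, hx0, ?_, ?_⟩
            · simp only [Pc, h, if_true]
              have h1 := hT1 b
              rw [← hbG h] at h1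
              exact hNice n (by omega) (by omega)
            · rw [← pow_succ, Finset.card_erase_add_one h]
              have : 0 < x ^ G.card := pow_pos hx0 _
              nlinarith
          · refine ⟨A, by linarith, ?_, ?_⟩
            · simp only [Pc, h, if_false]
              exact hWb n
            · rw [Finset.erase_eq_of_notMem h, mul_comm]
        have hq0 : 0 ≤ (Pm m).real Q' := measureReal_nonneg
        have e1 : lm ^ (2 * τ * C'.card) = lm ^ (2 * τ * (C'.card - 1)) * lm ^ (2 * τ) := by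
          rw [← pow_add]
          congr 1
          conv_lhs => rw [hcard]
          ring
        have e2 : κ ^ (T a - α a) ≤ κ ^ (T b - α b) :=
          pow_le_pow_of_le_one hκ0.le hκ1 (by omega)
        have e3 : lm ^ (T b - α b) * (lm ^ n * lm ^ (2 * τ)) ≤ lm ^ (T a - α a) := by
          rw [← pow_add, ← pow_add]
          exact pow_le_pow_of_le_one hlm0.le hlm1 (by omega)
        have e4 : A ^ C'.card = A ^ (C'.card - 1) * A := by
          conv_lhs => rw [hcard]
          rw [pow_succ]
        calc (Pm m).real Q' * (Pm m).real Pc * (lm ^ (2 * τ * C'.card) * κ ^ (T a - α a))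
            ≤ (Pm m).real Q' * (y * lm ^ n) * (lm ^ (2 * τ * C'.card) * κ ^ (T b - α b)) := by
              gcongr
          _ = ((Pm m).real Q' * (lm ^ (2 * τ * (C'.card - 1)) * κ ^ (T b - α b))) *
                (y * (lm ^ n * lm ^ (2 * τ))) := by rw [e1]; ring
          _ ≤ (D * A ^ (C'.card - 1) * x ^ (G.erase b).card * lm ^ (T b - α b)) *
                (y * (lm ^ n * lm ^ (2 * τ))) := by
              gcongr
          _ = D * A ^ (C'.card - 1) * (x ^ (G.erase b).card * y) *
                (lm ^ (T b - α b) * (lm ^ n * lm ^ (2 * τ))) := by ring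
          _ ≤ D * A ^ (C'.card - 1) * (A * x ^ G.card) * lm ^ (T a - α a) := by
              gcongr
          _ = D * A ^ C'.card * x ^ G.card * lm ^ (T a - α a) := by rw [e4]; ring

end claim

theorem s_pb (hB : S_BLOCK) (hM : S_LAM) : S_PB := by
  intro m c v C2 ζ l M K s τ C G α β A x D κ hc0 hc1 hl hs h2τ hCn hCK hG hαβ hbd hA hWb hx0 hx1
    hNice hD hκ0 hκ1 hZ
  obtain ⟨hlm0, hlm1, -, -, -, -⟩ := hM m c hc0 hc1
  set lm := lam m c with hlm
  obtain ⟨a, hadef⟩ : ∃ a, a = C.max' hCn := ⟨_, rfl⟩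
  have ha : a ∈ C := hadef ▸ C.max'_mem hCn
  have hamax : ∀ k ∈ C, k ≤ a := fun k hk => hadef ▸ C.le_max' k hk
  have hT1 : ∀ k, (fun k => (k * M + s) * l) (k + 1) = (fun k => (k * M + s) * l) k + M * l := by
    intro k
    simp only
    ring
  obtain ⟨Q, hQm, hQl, hQu, hQp⟩ := claim (v := v) (C2 := C2) (ζ := ζ) (T := fun k => (k * M + s) * l) hB hlm0 hlm1 hT1 h2τ hαβ hA
    hWb hx0 hNice hD hκ0 hκ1 hZ C a ha hamax G hG
  set Ta := (a * M + s) * l with hTa
  set L := K * (M * l) with hL
  obtain ⟨hαa, hβa⟩ := hαβ a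
  obtain ⟨hb1, hb2⟩ := hbd a ha
  have hsub : Pat m c v C2 ζ L (fun k => (k * M + s) * l) C G α β ⊆
      {u | u ∈ Q ∧ shift (Ta + β a) u ∈ Saw m c (L - (Ta + β a))} := by
    rintro u ⟨h1, h2, h3⟩
    exact ⟨hQu u L (by omega) h1 h2 h3, saw_shift h1 (by omega)⟩
  have h1 : (Pm m).real (Pat m c v C2 ζ L (fun k => (k * M + s) * l) C G α β) ≤
      (Pm m).real Q * (Pm m).real (Saw m c (L - (Ta + β a))) := by
    rw [← two_block (t := Ta + β a) (n0 := Ta - α a) hB hQm hQl (meas_Saw _ _) (loc_Saw _ _)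
      (by omega)]
    exact measureReal_mono hsub (measure_ne_top _ _)
  have h2 : (Pm m).real (Saw m c (L - (Ta + β a))) * κ ^ (L - (Ta + β a)) ≤
      D * lm ^ (L - (Ta + β a)) := by
    have h3 := hZ (L - (Ta + β a))
    rw [div_pow] at h3
    have h4 : 0 < κ ^ (L - (Ta + β a)) := pow_pos hκ0 _
    have h5 := mul_le_mul_of_nonneg_right h3 h4.le
    have h6 : D * (lm ^ (L - (Ta + β a)) / κ ^ (L - (Ta + β a))) * κ ^ (L - (Ta + β a)) =
        D * lm ^ (L - (Ta + β a)) := by
      field_simp
    rw [h6] at h5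
    exact h5
  have hcard1 : 1 ≤ C.card := Finset.card_pos.2 hCn
  have hcardK : C.card ≤ K := by
    have h := Finset.card_le_card (s := C) (t := Finset.range K)
      (fun k hk => Finset.mem_range.2 (hCK k hk))
    simpa using h
  have hKpos : 0 < lm ^ (2 * τ * K) * κ ^ L := by positivity
  rw [← mul_div_assoc, le_div_iff₀ hKpos]
  have e0 : lm ^ (2 * τ * K) ≤ lm ^ (2 * τ * (C.card - 1)) * lm ^ (2 * τ) := by
    rw [← pow_add]
    refine pow_le_pow_of_le_one hlm0.le hlm1 ?_
    have : 2 * τ * (C.card - 1) + 2 * τ = 2 * τ * C.card := by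
      obtain ⟨q, hq⟩ : ∃ q, C.card = q + 1 := ⟨C.card - 1, by omega⟩
      rw [hq, Nat.add_sub_cancel]
      ring
    rw [this]
    exact Nat.mul_le_mul_left _ hcardK
  have e1 : κ ^ L ≤ κ ^ (Ta - α a) * κ ^ (L - (Ta + β a)) := by
    rw [← pow_add]
    exact pow_le_pow_of_le_one hκ0.le hκ1 (by omega)
  have e2 : lm ^ (Ta - α a) * lm ^ (L - (Ta + β a)) * lm ^ (2 * τ) ≤ lm ^ L := by
    rw [← pow_add, ← pow_add]
    exact pow_le_pow_of_le_one hlm0.le hlm1 (by omega)
  have e3 : A ^ (C.card - 1) ≤ A ^ K := pow_le_pow_right₀ hA (by omega)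
  have hQ0 : 0 ≤ (Pm m).real Q := measureReal_nonneg
  have hS0 : 0 ≤ (Pm m).real (Saw m c (L - (Ta + β a))) := measureReal_nonneg
  calc (Pm m).real (Pat m c v C2 ζ L (fun k => (k * M + s) * l) C G α β) *
        (lm ^ (2 * τ * K) * κ ^ L)
      ≤ ((Pm m).real Q * (Pm m).real (Saw m c (L - (Ta + β a)))) *
        ((lm ^ (2 * τ * (C.card - 1)) * lm ^ (2 * τ)) *
          (κ ^ (Ta - α a) * κ ^ (L - (Ta + β a)))) := by gcongr
    _ = ((Pm m).real Q * (lm ^ (2 * τ * (C.card - 1)) * κ ^ (Ta - α a))) *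
        ((Pm m).real (Saw m c (L - (Ta + β a))) * κ ^ (L - (Ta + β a))) * lm ^ (2 * τ) := by ring
    _ ≤ (D * A ^ (C.card - 1) * x ^ G.card * lm ^ (Ta - α a)) * (D * lm ^ (L - (Ta + β a))) *
        lm ^ (2 * τ) := by gcongr
    _ = D ^ 2 * A ^ (C.card - 1) * x ^ G.card *
        (lm ^ (Ta - α a) * lm ^ (L - (Ta + β a)) * lm ^ (2 * τ)) := by ring
    _ ≤ D ^ 2 * A ^ K * x ^ G.card * lm ^ L := by gcongr

end Pool.Agent.H322.HS.PB
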